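import Mathlib

namespace Pool.Agent.Results.MP_6f1380_al.HalfKreknin

/-- The derived series of a Lie ring: `L^(0) = L` and `L^(k+1)` is the additive subgroup generated
by all `[x, y]` with `x, y` in `L^(k)`. -/
def der (L : Type) [LieRing L] : ℕ → AddSubgroup L
  | 0 => ⊤
  | k + 1 => AddSubgroup.closure {z | ∃ x ∈ der L k, ∃ y ∈ der L k, z = ⁅x, y⁆}

/-- A grading of the Lie ring `L` by `ℤ/nℤ` with `L_0 = 0`. -/
structure GradedZero (n : ℕ) (L : Type) [LieRing L] (A : ZMod n → AddSubgroup L) : Prop where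
  internal : DirectSum.IsInternal A
  mul : ∀ i j, ∀ x ∈ A i, ∀ y ∈ A j, ⁅x, y⁆ ∈ A (i + j)
  zero : A 0 = ⊥

variable {L : Type} [LieRing L] {n : ℕ}

/-- the components of the derived series of a graded family -/
def comp (M : ZMod n → AddSubgroup L) : ℕ → ZMod n → AddSubgroup L
  | 0, i => M i
  | k + 1, i => AddSubgroup.closure
      {z | ∃ a b, a + b = i ∧ ∃ x ∈ comp M k a, ∃ y ∈ comp M k b, z = ⁅x, y⁆}

/-- left-normed commutators with letters of degree at least `k` -/
inductive LN (M : ZMod n → AddSubgroup L) (k : ℕ) : ZMod n → L → Prop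
  | base {j : ZMod n} {x : L} (hj : k ≤ j.val) (hx : x ∈ M j) : LN M k j x
  | step {i j : ZMod n} {w x : L} (hw : LN M k i w) (hj : k ≤ j.val) (hx : x ∈ M j) :
      LN M k (i + j) ⁅w, x⁆

def C (M : ZMod n → AddSubgroup L) (k : ℕ) (i : ZMod n) : AddSubgroup L :=
  AddSubgroup.closure {x | LN M k i x}

def C2 (M : ZMod n → AddSubgroup L) (k : ℕ) (i : ZMod n) : AddSubgroup L :=
  AddSubgroup.closure {z | ∃ a b, a + b = i ∧ ∃ w x, LN M k a w ∧ k ≤ b.val ∧ x ∈ M b ∧ z = ⁅w, x⁆}

def Closed (M : ZMod n → AddSubgroup L) : Prop :=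
  ∀ i j, ∀ x ∈ M i, ∀ y ∈ M j, ⁅x, y⁆ ∈ M (i + j)

lemma C2_le (M : ZMod n → AddSubgroup L) (k : ℕ) (i : ZMod n) : C2 M k i ≤ C M k i := by
  unfold C2
  rw [AddSubgroup.closure_le]
  rintro z ⟨a, b, rfl, w, x, hw, hb, hx, rfl⟩
  exact AddSubgroup.subset_closure (LN.step hw hb hx)

lemma letter_mem (M : ZMod n → AddSubgroup L) (k : ℕ) {i j : ZMod n} {u x : L}
    (hu : u ∈ C M k i) (hj : k ≤ j.val) (hx : x ∈ M j) : ⁅u, x⁆ ∈ C2 M k (i + j) := by
  unfold C at hu
  induction hu using AddSubgroup.closure_induction with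
  | mem w hw => exact AddSubgroup.subset_closure ⟨i, j, rfl, w, x, hw, hj, hx, rfl⟩
  | zero => rw [zero_lie]; exact zero_mem _
  | add a b _ _ ha hb => rw [add_lie]; exact add_mem ha hb
  | neg a _ ha => rw [neg_lie]; exact neg_mem ha

lemma LN_mul (M : ZMod n → AddSubgroup L) (k : ℕ) {j : ZMod n} {y : L} (hy : LN M k j y) :
    ∀ (i : ZMod n) (u : L), u ∈ C M k i → ⁅u, y⁆ ∈ C2 M k (i + j) := by
  induction hy with
  | base hj hx => intro i u hu; exact letter_mem M k hu hj hx
  | @step i' j' w x hw hj hx ih =>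
    intro i u hu
    have e : ⁅u, ⁅w, x⁆⁆ = ⁅⁅u, w⁆, x⁆ - ⁅⁅u, x⁆, w⁆ := by
      have := leibniz_lie u w x
      rw [this, ← lie_skew w ⁅u, x⁆]
      abel
    rw [e]
    have h1 := letter_mem M k (C2_le M k _ (ih i u hu)) hj hx
    have h2 := ih (i + j') ⁅u, x⁆ (C2_le M k _ (letter_mem M k hu hj hx))
    have e1 : i + i' + j' = i + (i' + j') := by ring
    have e2 : i + j' + i' = i + (i' + j') := by ring
    rw [e1] at h1
    rw [e2] at h2
    exact sub_mem h1 h2

lemma C_mul (M : ZMod n → AddSubgroup L) (k : ℕ) {i j : ZMod n} {u y : L}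
    (hu : u ∈ C M k i) (hy : y ∈ C M k j) : ⁅u, y⁆ ∈ C2 M k (i + j) := by
  unfold C at hy
  induction hy using AddSubgroup.closure_induction with
  | mem w hw => exact LN_mul M k hw i u hu
  | zero => rw [lie_zero]; exact zero_mem _
  | add a b _ _ ha hb => rw [lie_add]; exact add_mem ha hb
  | neg a _ ha => rw [lie_neg]; exact neg_mem ha

lemma comp_le (M : ZMod n → AddSubgroup L) (hM : Closed M) :
    ∀ (k : ℕ) (i : ZMod n), comp M k i ≤ M i := by
  intro k
  induction k with
  | zero => intro i; exact le_rfl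
  | succ k ih =>
    intro i
    show AddSubgroup.closure _ ≤ _
    rw [AddSubgroup.closure_le]
    rintro z ⟨a, b, rfl, x, hx, y, hy, rfl⟩
    exact hM a b x (ih a hx) y (ih b hy)

lemma comp_closed (M : ZMod n → AddSubgroup L) (hM : Closed M) :
    ∀ (k : ℕ), Closed (comp M k) := by
  intro k
  induction k with
  | zero => exact hM
  | succ k ih =>
    intro i j x hx y hy
    have key : ∀ i, comp M (k + 1) i ≤ comp M k i := by
      intro i
      show AddSubgroup.closure _ ≤ _
      rw [AddSubgroup.closure_le]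
      rintro z ⟨a, b, rfl, x, hx, y, hy, rfl⟩
      exact ih a b x hx y hy
    exact AddSubgroup.subset_closure ⟨i, j, rfl, x, key i hx, y, key j hy, rfl⟩

lemma comp_comp (M : ZMod n → AddSubgroup L) (a : ℕ) :
    ∀ b, comp (comp M a) b = comp M (a + b) := by
  intro b
  induction b with
  | zero => rfl
  | succ b ih =>
    funext i
    show AddSubgroup.closure _ = AddSubgroup.closure _
    rw [ih]
    rfl

lemma LN_mem (M : ZMod n → AddSubgroup L) (hM : Closed M) {k : ℕ} {i : ZMod n} {x : L}
    (h : LN M k i x) : x ∈ M i := by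
  induction h with
  | base _ hx => exact hx
  | step _ _ hx ih => exact hM _ _ _ ih _ hx

lemma top_comp [NeZero n] (M : ZMod n → AddSubgroup L) (hM : Closed M) (h0 : M 0 = ⊥) {k : ℕ}
    (hk : k < n) : C2 M k (k : ZMod n) ≤ C M (k + 1) (k : ZMod n) := by
  unfold C2
  rw [AddSubgroup.closure_le]
  rintro z ⟨a, b, hab, w, x, hw, hb, hx, rfl⟩
  have hwM := LN_mem M hM hw
  rcases Nat.eq_or_lt_of_le hb with hb' | hb'
  · have hbk : b = (k : ZMod n) := by
      rw [hb', ZMod.natCast_zmod_val]
    have ha : a = 0 := by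
      rw [hbk] at hab
      exact add_eq_right.mp hab
    rw [ha, h0] at hwM
    have : w = 0 := by simpa using hwM
    rw [this, zero_lie]
    exact zero_mem _
  · have hv : (a.val + b.val) % n = k := by
      rw [← ZMod.val_add, hab, ZMod.val_natCast, Nat.mod_eq_of_lt hk]
    have hbn := ZMod.val_lt b
    have han := ZMod.val_lt a
    have ha : k + 1 ≤ a.val := by
      by_contra hc
      push Not at hc
      rcases Nat.lt_or_ge (a.val + b.val) n with h | h
      · rw [Nat.mod_eq_of_lt h] at hv
        omega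
      · rw [Nat.mod_eq_sub_mod h, Nat.mod_eq_of_lt (by omega)] at hv
        omega
    rw [← hab]
    exact AddSubgroup.subset_closure (LN.step (LN.base ha hwM) hb' hx)

lemma main [NeZero n] : ∀ (k : ℕ), k + 1 ≤ n → ∀ (M : ZMod n → AddSubgroup L), Closed M →
    M 0 = ⊥ → ∀ i, comp M (2 ^ k - 1) i ≤ C M (k + 1) i := by
  intro k
  induction k with
  | zero =>
    intro _ M hM h0 i x hx
    have hx : x ∈ M i := hx
    by_cases hi : i = 0
    · rw [hi, h0] at hx
      have : x = 0 := by simpa using hx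
      rw [this]; exact zero_mem _
    · exact AddSubgroup.subset_closure (LN.base
        (Nat.one_le_iff_ne_zero.mpr fun h => hi ((ZMod.val_eq_zero i).mp h)) hx)
  | succ k ih =>
    intro hk M hM h0 i
    have hk' : k + 1 < n := by omega
    set a := 2 ^ k - 1 with ha
    have hpow : 2 ^ (k + 1) - 1 = (a + 1) + a := by
      have : 0 < 2 ^ k := by positivity
      rw [pow_succ, ha]; omega
    have hM1 : Closed (comp M (a + 1)) := comp_closed M hM _
    have h01 : comp M (a + 1) 0 = ⊥ := by
      have := comp_le M hM (a + 1) 0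
      rw [h0] at this
      exact le_bot_iff.mp this
    have hM0 := ih (by omega) M hM h0
    have hM2 := ih (by omega) (comp M (a + 1)) hM1 h01 i
    rw [comp_comp, ← hpow] at hM2
    refine hM2.trans ?_
    -- the component of degree `k + 1`
    have hkey : comp M (a + 1) ((k + 1 : ℕ) : ZMod n) ≤ C M (k + 2) ((k + 1 : ℕ) : ZMod n) := by
      refine le_trans ?_ (top_comp M hM h0 hk')
      show AddSubgroup.closure _ ≤ _
      rw [AddSubgroup.closure_le]
      rintro z ⟨p, q, hpq, x, hx, y, hy, rfl⟩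
      rw [← hpq]
      exact C_mul M (k + 1) (hM0 p hx) (hM0 q hy)
    have hlet : ∀ j : ZMod n, k + 1 ≤ j.val → comp M (a + 1) j ≤ C M (k + 2) j := by
      intro j hj
      rcases Nat.eq_or_lt_of_le hj with hj' | hj'
      · have : j = ((k + 1 : ℕ) : ZMod n) := by rw [hj', ZMod.natCast_zmod_val]
        rw [this]
        exact hkey
      · intro x hx
        exact AddSubgroup.subset_closure (LN.base hj' (comp_le M hM _ _ hx))
    have hLN : ∀ (i : ZMod n) (x : L), LN (comp M (a + 1)) (k + 1) i x → x ∈ C M (k + 2) i := by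
      intro i x h
      induction h with
      | base hj hx => exact hlet _ hj hx
      | step _ hj hx ih2 => exact C2_le M _ _ (C_mul M (k + 2) ih2 (hlet _ hj hx))
    show AddSubgroup.closure _ ≤ _
    rw [AddSubgroup.closure_le]
    intro x hx
    exact hLN i x hx

lemma der_le (A : ZMod n → AddSubgroup L) (hA : (⨆ i, A i) = ⊤) :
    ∀ k, der L k ≤ ⨆ i, comp A k i := by
  intro k
  induction k with
  | zero => exact hA.ge
  | succ k ih =>
    show AddSubgroup.closure _ ≤ _
    rw [AddSubgroup.closure_le]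
    rintro z ⟨x, hx, y, hy, rfl⟩
    have hx' : x ∈ AddSubgroup.closure (⋃ i, (comp A k i : Set L)) := by
      rw [← AddSubgroup.iSup_eq_closure]; exact ih hx
    have hy' : y ∈ AddSubgroup.closure (⋃ i, (comp A k i : Set L)) := by
      rw [← AddSubgroup.iSup_eq_closure]; exact ih hy
    show ⁅x, y⁆ ∈ ⨆ i, comp A (k + 1) i
    clear hx hy
    induction hx' using AddSubgroup.closure_induction with
    | mem x hx1 =>
      induction hy' using AddSubgroup.closure_induction with
      | mem y hy1 =>
        obtain ⟨i, hi⟩ := Set.mem_iUnion.mp hx1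
        obtain ⟨j, hj⟩ := Set.mem_iUnion.mp hy1
        exact AddSubgroup.mem_iSup_of_mem (i + j)
          (AddSubgroup.subset_closure ⟨i, j, rfl, x, hi, y, hj, rfl⟩)
      | zero => rw [lie_zero]; exact zero_mem _
      | add a b _ _ ha hb => rw [lie_add]; exact add_mem ha hb
      | neg a _ ha => rw [lie_neg]; exact neg_mem ha
    | zero => rw [zero_lie]; exact zero_mem _
    | add a b _ _ ha hb => rw [add_lie]; exact add_mem ha hb
    | neg a _ ha => rw [neg_lie]; exact neg_mem ha

/-- `f(n) ≤ 2^(n-1) - 1`: every `ℤ/nℤ`-graded Lie ring with zero component `L_0 = 0` is soluble of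
derived length at most `2^(n-1) - 1`. -/
theorem result (n : ℕ) (hn : 1 ≤ n) (L : Type) [LieRing L] (A : ZMod n → AddSubgroup L)
    (hA : GradedZero n L A) : der L (2 ^ (n - 1) - 1) = ⊥ := by
  have : NeZero n := ⟨by omega⟩
  have hsup : (⨆ i, A i) = ⊤ := by
    rw [eq_top_iff]
    intro x hx
    clear hx
    obtain ⟨v, rfl⟩ := hA.internal.2 x
    induction v using DirectSum.induction_on with
    | zero => rw [map_zero]; exact zero_mem _
    | of i a =>
      rw [DirectSum.coeAddMonoidHom_of]
      exact AddSubgroup.mem_iSup_of_mem i a.2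
    | add a b ha hb => rw [map_add]; exact add_mem ha hb
  have h1 := der_le A hsup (2 ^ (n - 1) - 1)
  have h2 : ∀ i, comp A (2 ^ (n - 1) - 1) i = ⊥ := by
    intro i
    have := main (n - 1) (by omega) A (fun i j x hx y hy => hA.mul i j x hx y hy) hA.zero i
    rw [eq_bot_iff]
    refine this.trans ?_
    have hn1 : n - 1 + 1 = n := by omega
    rw [hn1]
    unfold C
    rw [AddSubgroup.closure_le]
    intro x hx
    exfalso
    have : ∀ (i : ZMod n) (x : L), LN A n i x → False := by
      intro i x h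
      induction h with
      | @base j x hj hx => exact absurd (ZMod.val_lt j) (by omega)
      | step _ _ _ ih => exact ih
    exact this i x hx
  rw [eq_bot_iff]
  refine h1.trans ?_
  simp [h2]

end Pool.Agent.Results.MP_6f1380_al.HalfKreknin
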